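import Mathlib
import Pool.Agent.Q42.AI.Main

/-!
# ACC for minimal log discrepancies of nondegenerate triples on toric germs

`ToricGerm n K`: an affine toric variety `X` of dimension `n` with function field `K` and with a
fixed point `P`, given by any strictly convex rational cone of dimension `n`. On it one has an
arbitrary effective `ℝ`-divisor `B` such that `K_X + B` is `ℝ`-Cartier at `P`, with the local
equation `e`, and arbitrary ideals `a_1, ..., a_r` of the coordinate ring with real exponents
`c_1, ..., c_r ≥ 0`. The minimal log discrepancy `IsMldT e a c m` of the triple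
`(X ∋ P, B, a_1 ^ c_1 ⋯ a_r ^ c_r)` is the least value of `a(v, X, B) - ∑ c_i ord_v (a_i)` over all
prime divisors `v` over `X` with centre `P`.

`NondegT g B a c` (nondegenerate in the sense of Newton polyhedra): for a system of polynomials
`q_1, ..., q_s` which is nondegenerate (`IsNondeg`: for every weight `u` in the interior of the cone
the initial forms of the `q_j` which vanish at a point of the torus have linearly independent
logarithmic differentials there) and which is divided into blocks, the coefficients of `B` are at
most `1`, the components of `B` through `P` which meet the torus are components of the zero divisors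
of the members of the first block, and every ideal `a_i` is a monomial ideal (with any exponent), or
it is generated by monomials and by products of monomials with the members of its own block, and its
exponent is at most `1`. `ComputedT e a c m`: the minimal log discrepancy `m` is the log discrepancy of
a monomial valuation; here `B` and the ideals are arbitrary.
-/

set_option autoImplicit false

namespace Pool.Agent.Results.MP_df5e61_ag.NondegenerateTriples

open Pool.Agent.TH165.ACC Pool.Agent.W497.Mld Pool.Agent.H436R3.KT Pool.Agent.Q42.AI

/-- (1) For every `n` and every DCC set `Γ` of real numbers, the minimal log discrepancies `≥ 0` of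
the triples `(X ∋ P, B, a_1 ^ c_1 ⋯ a_r ^ c_r)`, where `X ∋ P` is a toric germ of dimension `n`, `B` an
effective `ℝ`-divisor with coefficients in `Γ` such that `K_X + B` is `ℝ`-Cartier, `a_1, ..., a_r` (any
number) are ideals with exponents `c_i ≥ 0` in `Γ`, and the triple is nondegenerate at `P` or its
minimal log discrepancy is computed by a monomial valuation, form an ACC set.
(2) For a nondegenerate triple with exponents `c_i ≥ 0`, the minimal log discrepancy, if it is `≥ 0`,
is computed by a monomial valuation. -/
theorem result (n : ℕ) :
    (∀ Γ : Set ℝ, Pool.Agent.TH165.ACC.IsDCC Γ →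
      IsACC {m : ℝ | 0 ≤ m ∧ ∃ (g : ToricGerm n (FractionRing (MvPolynomial (Fin n) ℂ)))
        (B : EffDiv g.X) (e : LocEq B g.P) (r : ℕ) (a : Fin r → Ideal g.X.R) (c : Fin r → ℝ),
        CoeffIn B Γ ∧ (∀ i, c i ∈ Γ ∧ 0 ≤ c i) ∧ IsMldT e a c m ∧
          (ComputedT e a c m ∨ NondegT g B a c)}) ∧
    ∀ (g : ToricGerm n (FractionRing (MvPolynomial (Fin n) ℂ))) (B : EffDiv g.X)
      (e : LocEq B g.P) (r : ℕ) (a : Fin r → Ideal g.X.R) (c : Fin r → ℝ) (m : ℝ),
      (∀ i, 0 ≤ c i) → 0 ≤ m → IsMldT e a c m → NondegT g B a c → ComputedT e a c m :=
  ⟨fun _ hΓ => acc_T hΓ, fun _ _ _ _ _ _ _ hc hm0 hm hB => computed_T hc hm0 hm hB⟩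

end Pool.Agent.Results.MP_df5e61_ag.NondegenerateTriples
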