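import Mathlib
import Pool.Agent.Q47.TV.EtAcc

/-!
# ACC for minimal log discrepancies of quotients of toroidal pairs

`x` is a closed point of a complex affine variety `X`, `B` an effective `ℝ`-divisor with `K_X + B`
`ℝ`-Cartier at `x`, and `G` a finite group of automorphisms of the germ `(X ∋ x, B)`. Every `σ` in `G` has
an étale toric chart (`EtGerm`): morphisms `X ← U → X_σ`, étale at a closed point `u`, `u ↦ x` and
`u ↦ y`, where `X_σ` is an affine toric variety of dimension `n` (any strictly convex rational cone of any
dimension at most `n`) with a torus invariant boundary with coefficients in a DCC set `Γ`, and `y` is any
closed point of it, under which the pairs correspond, and an automorphism `ρ` of `U` which fixes `u` and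
lies over `σ` and over a monomial automorphism of `X_σ`. The morphisms enter through the following
property of étale morphisms (`IsEtale`): restriction of valuations is a bijection of the divisors over
`u` and the divisors over its image, with the same residue fields. Different elements of `G` may need
different charts.

Remarks (not part of the formal statement). For `X` smooth and `B = 0` every `σ` has a chart: a
`σ`-invariant neighbourhood of `x` has an equivariant étale morphism to the tangent space. Thus all
quotient singularities are included, as are toroidal pairs and their quotients by groups whose elements
are étale locally monomial, in particular all closed points of the quotients of projective toric pairs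
`(X, B)` by finite groups of automorphisms: by Steinberg's theorem every element of finite order of
the linear algebraic group `Aut (X, B)` normalizes a maximal torus.

For the pair `(Y ∋ Q, B_Y)`, `Y = X / G`, with `K_X + B = π^* (K_Y + B_Y)`, every prime divisor `F` over `Y`
with centre `Q` is the image of a prime divisor `E` over `X` with centre `x`, and
`a(E, X, B) = r_E a(F, Y, B_Y)` with the ramification index `r_E`, the order of the inertia group of `E`.
Therefore the minimal log discrepancy of the quotient is the least value of `a(E, X, B) / r_E`
(`IsQuotMldX`).

Idea of the proof: let `E` compute the minimal log discrepancy `m` of the quotient, let `σ` generate its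
inertia group, of order `r`, and let `W` be the action of `σ` on the lattice of monomials of the chart. The
inertia and the character of `σ` on the conormal line are the same for the corresponding divisor over
`y`. The eigenfunctions which are units times monomials minus constants give `m ≥ κ + c + φ (u)`, where
`exp (2 π i κ_j)`, `0 ≤ κ_j < 1`, are the eigenvalues of `W`, `κ = ∑ κ_j`, `c` is the dimension of the space
spanned by the `W`-invariant monomials which do not vanish at `y`, `r u` is the weight of `E` and `φ` is
the log discrepancy function on the face of the cone which belongs to `y`. Conversely, for every
rational `W`-invariant `u` in the interior of the face which is compatible with the residues at `y`, an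
embedding of the function field in `K((t))` gives a divisorial valuation with
`a(E, X, B) / r_E ≤ κ + c + φ (u)`. Therefore `m - κ - c` is the minimum of `φ` on a coset of a finite group,
and `κ` has bounded denominator (Minkowski).
-/

set_option autoImplicit false

namespace Pool.Agent.Results.MP_df5e61_ag.ToroidalQuotients

open Pool.Agent.TH165.ACC Pool.Agent.W497.Mld Pool.Agent.H436R3.KT Pool.Agent.H436R3.Fol Q47.QM Q47.TV

/-- For every `n` and every DCC set `Γ`, the numbers `m ≥ 0` of the following form are an ACC set:
`x` is a closed point of a complex affine variety `X` with function field `L`, `B` an effective
`ℝ`-divisor on `X` such that `K_X + B` is `ℝ`-Cartier at `x`, `G` a finite group of automorphisms of the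
function field which preserve the divisors over `x` and their log discrepancies, every element of `G`
has an étale toric chart of dimension `n` at `x` with coefficients in `Γ`, and `m` is the least value of
`a(E, X, B) / r_E` over all prime divisors `E` over `X` with centre `x`, where `r_E` is the order of the
inertia group of `E`. -/
theorem result (n : ℕ) {Γ : Set ℝ} (hΓ : Pool.Agent.TH165.ACC.IsDCC Γ) :
    IsACC {m : ℝ | 0 ≤ m ∧ ∃ (L : Type) (_ : Field L) (_ : Algebra ℂ L) (X : AffVar L)
      (B : EffDiv X) (x : Pt X) (e : LocEq B x) (G : Subgroup (L ≃ₐ[ℂ] L)),
      Finite G ∧ (∀ σ ∈ G, IsGermAut e σ) ∧
      (∀ σ ∈ G, Nonempty (EtGerm n (FractionRing (MvPolynomial (Fin n) ℂ)) Γ e σ)) ∧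
      IsQuotMldX e G m} :=
  quot_acc_et hΓ

end Pool.Agent.Results.MP_df5e61_ag.ToroidalQuotients
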